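import Pool.Agent.Helper583.TTMain

/-!
No infinite computable Polish space is topologically computably categorical.
-/

namespace Pool.Agent.Results.MP_fa5791_lc.NotCategorical

open Pool.Agent.Helper583.TT

/-- Every infinite computable Polish space `X` has two presentations `M`, `N` (with injectively
enumerated dense sets) such that no homeomorphism from `M.Y` to `N.Y` is computable together with
its inverse. -/
theorem result (X : Type) [TopologicalSpace X] [Infinite X]
    (hX : ∃ M : CMS, Nonempty (M.Y ≃ₜ X)) :
    ∃ M N : CMS, Function.Injective M.c ∧ Function.Injective N.c ∧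
      Nonempty (M.Y ≃ₜ X) ∧ Nonempty (N.Y ≃ₜ X) ∧
      ∀ h : M.Y ≃ₜ N.Y, ¬ (CompMap M N h ∧ CompMap N M h.symm) :=
  not_categorical X hX

end Pool.Agent.Results.MP_fa5791_lc.NotCategorical
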